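import Pool.Agent.Q195.BL6

set_option autoImplicit false

open Pool.Agent.Q195.BL

namespace Pool.Agent.Results.MP_9b1016_an.LOpenSemiprojective

universe u v

/-- Every `ℓ`-open Banach lattice is semiprojective. -/
theorem result : ∀ (A : Type v) [NormedAddCommGroup A] [NormedSpace ℝ A] [Lattice A]
    [IsBanachLattice A], LOpen.{u, v} A → Semiprojective.{u, v} A :=
  fun _ _ _ _ _ h => h.semiprojective

end Pool.Agent.Results.MP_9b1016_an.LOpenSemiprojective
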